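import Mathlib
import Pool.Agent.Helper663.Defs
import Pool.Agent.Helper663.Count
import Pool.Agent.Helper663.Series

/-!
# Dasbach's generating function for connected uni-trivalent graphs with four loops is wrong

The coefficient of `t ^ 20` of the conjectured series is `38`, but `beta 23 20 ≥ 39`:
there are `39` connected graphs with `20` univalent and `26` trivalent vertices and `39` linear
functionals on `B` whose matrix of values is invertible (its determinant is a unit
modulo `32003`). The functionals are state sums of orthogonal type with weights at the
univalent vertices; the graphs are a theta graph with bubbles on two of its edges and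
hairs on four half-edges.
-/

namespace Pool.Agent.Results.MP_628b81_gt.DasbachFourLoopFalse

open Pool.Agent.Helper663 PowerSeries

theorem result :
    ¬ ((PowerSeries.mk fun k : ℕ => (beta (k + 3) k : ℚ)) =
      (1 + X ^ 2 + X ^ 8 - X ^ 10) *
        ((1 - X ^ 2) * (1 - X ^ 4) * (1 - X ^ 6) * (1 - X ^ 10))⁻¹) := by
  intro h
  have h1 := congrArg (PowerSeries.coeff 20) h
  rw [coeff_rhs, PowerSeries.coeff_mk] at h1
  have h2 : beta (20 + 3) 20 = 38 := by exact_mod_cast h1
  have h3 : 39 ≤ beta (20 + 3) 20 := beta_ge
  omega

end Pool.Agent.Results.MP_628b81_gt.DasbachFourLoopFalse
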